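import Pool.Agent.KZ.Text

/-!
# KQ: degree `4`, at least `T₀` points of multiplicity `3`: the exact dimension
-/

set_option autoImplicit false

namespace Pool.Agent.KQ

open Finset Pool.Agent.KZ Pool.Agent.H18.Fat Pool.Agent.H21.HD Pool.Agent.H21.NX

/-- The exact dimension in degree `4` for at least `T₀` points of multiplicity `3`. -/
theorem exact4_of (c : ℕ) (hP : ∃ T₀ : ℕ, ∀ t, T₀ ≤ t → ∀ n u : ℕ, 6 * t ≤ n ^ 2 →
      (H0 c n t u 0 : ℤ) ≤ max 0 (v0 n t u 0)) :
    ∃ T₀ n₀ : ℕ, ∀ (r k : ℕ) (m : Fin k → ℕ), (∀ i, 1 ≤ m i ∧ m i ≤ 4) →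
      ∀ N : ℕ, N + (univ.filter fun i => m i = 4).card = r + 1 → n₀ ≤ N →
      T₀ ≤ (univ.filter fun i => m i = 3).card →
      (∀ j < 4, 0 < fro r (fun i => 4 + 1 - m i) univ j) →
      ForGeneralPoints r k fun p => (Module.finrank ℂ (fatForms r 4 p m) : ℤ) =
        max (fro r (fun i => 4 + 1 - m i) univ 4) 0 := by
  classical
  obtain ⟨T₀, h₁⟩ := hP
  obtain ⟨n₂, h₂⟩ := Pool.Agent.XD.classify 4 (1 / 100) (by norm_num)
  refine ⟨T₀, n₂ + 30, fun r k m hm N hN hn hT hpos => ?_⟩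
  obtain ⟨f0, f1, f2, f3, f4⟩ := fro_counts r m univ (fun i _ => hm i) N hN
  obtain ⟨t, ht⟩ : ∃ t, t = (univ.filter fun i => m i = 3).card := ⟨_, rfl⟩
  obtain ⟨u, hu'⟩ : ∃ u, u = (univ.filter fun i => m i = 2).card := ⟨_, rfl⟩
  obtain ⟨w, hw⟩ : ∃ w, w = (univ.filter fun i => m i = 1).card := ⟨_, rfl⟩
  have hgd := gdim_eq_H0 c r k m hm N hN (by omega)
  rw [← ht, ← hu', ← hw] at f4 hgd
  rw [← ht, ← hu'] at f3
  rw [← ht] at hT
  obtain ⟨hX1, hX2, hX3⟩ := h₂ r k m hm (by rw [f1]; exact_mod_cast (by omega))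
  have hgen : Gen r (Fin k) fun p => Module.finrank ℂ (fatForms r 4 p m) = gdim r 4 m :=
    gen_gdim r 4 m
  rcases Nat.lt_or_ge (N ^ 2) (6 * t) with h6 | h6
  · -- many triple points
    have h7 := v0_many N t u w (by omega) h6 (by rw [← f3]; exact hpos 3 (by norm_num))
    rw [← f4] at h7
    have h8 := hX1 (Or.inr (by
      rw [f1]
      exact_mod_cast h7))
    refine h8.mono fun p hp => ?_
    have h9 : fro r (fun i => 4 + 1 - m i) univ 4 ≤ 0 := by
      have h10 : (fro r (fun i => 4 + 1 - m i) univ 4 : ℝ) ≤ 0 := by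
        have : 0 ≤ 1 / 100 * (N : ℝ) ^ 4 := by positivity
        linarith
      exact_mod_cast h10
    rw [hp, max_eq_right h9]
    rfl
  · have h7 := h₁ t hT N u h6
    have h8 := H0_s c N t u 0 w
    rw [zero_add] at h8
    have h9 : v0 N t u w = v0 N t u 0 - w := by
      unfold v0
      push_cast
      ring
    rw [h9] at f4
    rcases lt_or_ge 0 (fro r (fun i => 4 + 1 - m i) univ 4) with h10 | h10
    · have h11 : Gen r (Fin k) fun p => fro r (fun i => 4 + 1 - m i) univ 4 ≤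
          (Module.finrank ℂ (fatForms r 4 p m) : ℤ) := hX2 fun j hj => by
        rcases lt_or_eq_of_le hj with hj | rfl
        · exact hpos j hj
        · exact h10
      have h12 : Gen r (Fin k) fun p => (Module.finrank ℂ (fatForms r 4 p m) : ℤ) =
          max (fro r (fun i => 4 + 1 - m i) univ 4) 0 := by
        refine (hgen.and h11).mono ?_
        rintro p ⟨hp1, hp2⟩
        omega
      exact h12
    · have h12 : Gen r (Fin k) fun p => (Module.finrank ℂ (fatForms r 4 p m) : ℤ) =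
          max (fro r (fun i => 4 + 1 - m i) univ 4) 0 := by
        refine hgen.mono ?_
        intro p hp1
        omega
      exact h12

end Pool.Agent.KQ
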