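import Pool.Agent.KZ.AL.Fin
import Pool.Agent.KZ.BE.Beta
import Pool.Agent.KQ.M.Fin
import Pool.Agent.KQ.M.Host
import Pool.Agent.KQ.B.Fin
import Pool.Agent.KQ.B.Num
import Pool.Agent.KQ.B.Step
import Pool.Agent.KQ.Text

/-!
# KQ: degree `4` completely
-/

set_option autoImplicit false

namespace Pool.Agent.KQ

open Finset Pool.Agent.KZ Pool.Agent.H18.Fat Pool.Agent.H21.HD Pool.Agent.H21.NX

theorem prop0K : PROP0K 240 :=
  prop0K_c 240 le_rfl (by norm_num) host0 host1 (alpha1 240 dvd_rfl le_rfl)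
    (alpha2 240 dvd_rfl le_rfl) (BE.beta (by norm_num) le_rfl)

/-- The exact dimension in degree `4` for at least `T₀` points of multiplicity `3`. -/
theorem exact4 : ∃ T₀ n₀ : ℕ, ∀ (r k : ℕ) (m : Fin k → ℕ), (∀ i, 1 ≤ m i ∧ m i ≤ 4) →
      ∀ N : ℕ, N + (univ.filter fun i => m i = 4).card = r + 1 → n₀ ≤ N →
      T₀ ≤ (univ.filter fun i => m i = 3).card →
      (∀ j < 4, 0 < fro r (fun i => 4 + 1 - m i) univ j) →
      ForGeneralPoints r k fun p => (Module.finrank ℂ (fatForms r 4 p m) : ℤ) =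
        max (fro r (fun i => 4 + 1 - m i) univ 4) 0 :=
  exact4_of 240 (finB 240 prop0K (stepB 240) numB)

end Pool.Agent.KQ
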