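import Pool.Agent.H21.HD.Inst
import Pool.Agent.H21.HD.FroA
import Pool.Agent.H74.V7.FinC

/-!
# Multiplicities at most `3`, degree at least `5`

For all but finitely many `(r, d)` with `d ≥ 5` and all multiplicities `≤ 3`: `dim V_d = a_d` if
`a_0, …, a_d > 0`, and `V_d = 0` otherwise.
-/

set_option autoImplicit false

namespace Pool.Agent.KQ

open Finset Pool.Agent.H18.Fat Pool.Agent.H21.HD

theorem fro_low {P : Type} [DecidableEq P] (r : ℕ) (e : P → ℕ) (I : Finset P) (j : ℕ)
    (h : ∀ i ∈ I, j < e i) : fro r e I j = ((r + j).choose r : ℤ) := by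
  induction I using Finset.induction_on with
  | empty => exact FroAX.fro_empty r e j
  | insert b s hb ih =>
    rw [fro_insert' r e s b hb j, if_neg (by
      have := h b (mem_insert_self b s)
      omega), sub_zero]
    exact ih fun i hi => h i (mem_insert_of_mem hi)

/-- Without products. -/
theorem fro_lin {P : Type} [DecidableEq P] (r d : ℕ) (e : P → ℕ) (I : Finset P)
    (h : ∀ i ∈ I, d < 2 * e i) (j : ℕ) (hj : j ≤ d) : fro r e I j = ((r + j).choose r : ℤ) -
      ∑ i ∈ I, (if e i ≤ j then ((r + (j - e i)).choose r : ℤ) else 0) := by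
  induction I using Finset.induction_on with
  | empty =>
    rw [FroAX.fro_empty r e j, sum_empty, sub_zero]
  | insert b s hb ih =>
    have hb2 := h b (mem_insert_self b s)
    rw [fro_insert' r e s b hb j, ih fun i hi => h i (mem_insert_of_mem hi), sum_insert hb,
      fro_low r e s (j - e b) fun i hi => by
        have := h i (mem_insert_of_mem hi)
        omega]
    ring

/-- The quotients of binomial coefficients decrease. -/
theorem choose_step (r x e : ℕ) : (r + x).choose r * (r + (x + e) + 1).choose r ≤
    (r + x + 1).choose r * (r + (x + e)).choose r := by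
  have h1 : ∀ y : ℕ, (r + y + 1).choose r * (y + 1) = (r + y).choose r * (r + y + 1) := by
    intro y
    have h2 := Nat.choose_mul_succ_eq (r + y) r
    have h3 : r + y + 1 - r = y + 1 := by omega
    rw [h3] at h2
    exact h2.symm
  have h2 := h1 x
  have h3 := h1 (x + e)
  have hpos : 0 < (x + 1) * (x + e + 1) := by positivity
  refine le_of_mul_le_mul_right ?_ hpos
  calc (r + x).choose r * (r + (x + e) + 1).choose r * ((x + 1) * (x + e + 1))
      = (r + x).choose r * (x + 1) * ((r + (x + e) + 1).choose r * (x + e + 1)) := by ring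
    _ = (r + x).choose r * (x + 1) * ((r + (x + e)).choose r * (r + (x + e) + 1)) := by rw [h3]
    _ = (r + x).choose r * (r + (x + e)).choose r * ((x + 1) * (r + (x + e) + 1)) := by ring
    _ ≤ (r + x).choose r * (r + (x + e)).choose r * ((x + e + 1) * (r + x + 1)) := by
        apply Nat.mul_le_mul_left
        nlinarith
    _ = ((r + x).choose r * (r + x + 1)) * ((r + (x + e)).choose r * (x + e + 1)) := by ring
    _ = ((r + x + 1).choose r * (x + 1)) * ((r + (x + e)).choose r * (x + e + 1)) := by rw [h2]
    _ = (r + x + 1).choose r * (r + (x + e)).choose r * ((x + 1) * (x + e + 1)) := by ring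

theorem choose_ratio (r e j : ℕ) (hj : e ≤ j) (k : ℕ) :
    (r + (j - e)).choose r * (r + (j + k)).choose r ≤
      (r + (j + k - e)).choose r * (r + j).choose r := by
  induction k with
  | zero => exact le_rfl
  | succ k ih =>
    have h1 := choose_step r (j + k - e) e
    rw [show j + k - e + e = j + k by omega] at h1
    rw [show r + (j + (k + 1)) = r + (j + k) + 1 by ring,
      show r + (j + (k + 1) - e) = r + (j + k - e) + 1 by omega]
    have hpos : 0 < (r + (j + k)).choose r := Nat.choose_pos (by omega)
    refine le_of_mul_le_mul_right ?_ hpos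
    calc (r + (j - e)).choose r * (r + (j + k) + 1).choose r * (r + (j + k)).choose r
        = (r + (j - e)).choose r * (r + (j + k)).choose r * (r + (j + k) + 1).choose r := by ring
      _ ≤ (r + (j + k - e)).choose r * (r + j).choose r * (r + (j + k) + 1).choose r :=
          Nat.mul_le_mul_right _ ih
      _ = (r + (j + k - e)).choose r * (r + (j + k) + 1).choose r * (r + j).choose r := by ring
      _ ≤ (r + (j + k - e) + 1).choose r * (r + (j + k)).choose r * (r + j).choose r :=
          Nat.mul_le_mul_right _ h1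
      _ = (r + (j + k - e) + 1).choose r * (r + j).choose r * (r + (j + k)).choose r := by ring

/-- If the last coefficient is positive, then so are the others. -/
theorem fro_pos {P : Type} [DecidableEq P] (r d : ℕ) (e : P → ℕ) (I : Finset P)
    (h : ∀ i ∈ I, d < 2 * e i) (hd : 0 < fro r e I d) (j : ℕ) (hj : j ≤ d) : 0 < fro r e I j := by
  rw [fro_lin r d e I h d le_rfl] at hd
  rw [fro_lin r d e I h j hj]
  have hposd : (0 : ℤ) < ((r + d).choose r : ℤ) := by
    exact_mod_cast Nat.choose_pos (by omega : r ≤ r + d)
  have hposj : (0 : ℤ) < ((r + j).choose r : ℤ) := by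
    exact_mod_cast Nat.choose_pos (by omega : r ≤ r + j)
  have key : (∑ i ∈ I, (if e i ≤ j then ((r + (j - e i)).choose r : ℤ) else 0)) *
      ((r + d).choose r : ℤ) ≤
      (∑ i ∈ I, (if e i ≤ d then ((r + (d - e i)).choose r : ℤ) else 0)) *
        ((r + j).choose r : ℤ) := by
    rw [sum_mul, sum_mul]
    refine sum_le_sum fun i _ => ?_
    by_cases h1 : e i ≤ j
    · rw [if_pos h1, if_pos (h1.trans hj)]
      have h2 := choose_ratio r (e i) j h1 (d - j)
      rw [show j + (d - j) = d by omega] at h2
      exact_mod_cast h2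
    · rw [if_neg h1, zero_mul]
      split_ifs
      · positivity
      · rw [zero_mul]
  nlinarith

/-- Multiplicities `≤ 3`, degree `≥ 5`. -/
theorem m3_high (hc : ∀ M, 2 ≤ M → Pool.Agent.H74.V7.Crit M) : ∃ S : Finset (ℕ × ℕ), ∀ r d : ℕ,
    1 ≤ r → (r, d) ∉ S → 5 ≤ d → ∀ (k : ℕ) (m : Fin k → ℕ), (∀ i, 1 ≤ m i ∧ m i ≤ 3) →
      ((∀ j ≤ d, 0 < fro r (fun i => d + 1 - m i) univ j) →
        ForGeneralPoints r k fun p => (Module.finrank ℂ (fatForms r d p m) : ℤ) =
          fro r (fun i => d + 1 - m i) univ d) ∧
      (¬ (∀ j ≤ d, 0 < fro r (fun i => d + 1 - m i) univ j) →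
        ForGeneralPoints r k fun p => Module.finrank ℂ (fatForms r d p m) = 0) := by
  obtain ⟨S, hS⟩ := Pool.Agent.H74.V7.final_set hc 3 (by norm_num)
  refine ⟨S, fun r d hr hrd hd k m hm => ?_⟩
  have h1 := (hS r d hr hrd).1 (Or.inr (by omega)) k m hm
  have he : ∀ i ∈ (univ : Finset (Fin k)), d < 2 * (d + 1 - m i) := fun i _ => by
    have := (hm i).2
    omega
  have h2 : fro r (fun i => d + 1 - m i) univ d =
      ((d + r).choose r : ℤ) - ∑ i, ((m i + r - 1).choose r : ℤ) := by
    rw [fro_lin r d _ univ he d le_rfl, add_comm r d]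
    congr 1
    refine sum_congr rfl fun i _ => ?_
    have := hm i
    rw [if_pos (by omega), show r + (d - (d + 1 - m i)) = m i + r - 1 by omega]
  constructor
  · intro hpos
    refine h1.mono fun p hp => ?_
    have h3 := hpos d le_rfl
    unfold ImposesMaximalConditions at hp
    rw [hp, ← h2, max_eq_right h3.le]
  · intro hneg
    have h3 : fro r (fun i => d + 1 - m i) univ d ≤ 0 := by
      by_contra hcon
      push Not at hcon
      exact hneg fun j hj => fro_pos r d _ univ he hcon j hj
    refine h1.mono fun p hp => ?_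
    unfold ImposesMaximalConditions at hp
    rw [← h2, max_eq_left h3] at hp
    exact_mod_cast hp

end Pool.Agent.KQ
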